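import Mathlib

set_option autoImplicit false

/-!
The space of exponent vectors of positive rationals, and the height.
-/

namespace Pool.Agent.Helper7.Density

open Finset

/-- the index type: primes below `M` -/
abbrev Ix (M : ℕ) := {p // p ∈ Nat.primesBelow M}

abbrev VV (M : ℕ) := PiLp 1 (fun _ : Ix M => ℝ)

lemma Ix.prime {M : ℕ} (p : Ix M) : Nat.Prime p := Nat.prime_of_mem_primesBelow p.2

/-- the vector of `p`-adic valuations, weighted with `log p` -/
noncomputable def vec (M : ℕ) (g : ℚ) : VV M :=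
  WithLp.toLp 1 (fun p : Ix M => (padicValRat (p : ℕ) g : ℝ) * Real.log (p : ℕ))

lemma vec_apply (M : ℕ) (g : ℚ) (p : Ix M) :
    vec M g p = (padicValRat (p : ℕ) g : ℝ) * Real.log (p : ℕ) := rfl

lemma vec_mul (M : ℕ) {g g' : ℚ} (hg : g ≠ 0) (hg' : g' ≠ 0) :
    vec M (g * g') = vec M g + vec M g' := by
  ext p
  have : Fact (Nat.Prime (p : ℕ)) := ⟨p.prime⟩
  rw [PiLp.add_apply, vec_apply, vec_apply, vec_apply, padicValRat.mul hg hg']
  push_cast; ring

lemma vec_inv (M : ℕ) (g : ℚ) : vec M (g⁻¹) = - vec M g := by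
  ext p
  have : Fact (Nat.Prime (p : ℕ)) := ⟨p.prime⟩
  rw [PiLp.neg_apply, vec_apply, vec_apply, padicValRat.inv]
  push_cast; ring

lemma vec_div (M : ℕ) {g g' : ℚ} (hg : g ≠ 0) (hg' : g' ≠ 0) :
    vec M (g / g') = vec M g - vec M g' := by
  rw [div_eq_mul_inv, vec_mul M hg (inv_ne_zero hg'), vec_inv, sub_eq_add_neg]

lemma vec_zpow (M : ℕ) (g : ℚ) (k : ℤ) : vec M (g ^ k) = (k : ℝ) • vec M g := by
  ext p
  have : Fact (Nat.Prime (p : ℕ)) := ⟨p.prime⟩
  rw [PiLp.smul_apply, vec_apply, vec_apply, padicValRat.zpow, smul_eq_mul]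
  push_cast; ring

lemma vec_one (M : ℕ) : vec M 1 = 0 := by
  ext p
  rw [vec_apply]; simp

/-- sum of the coordinates -/
noncomputable def ff (M : ℕ) : VV M →ₗ[ℝ] ℝ where
  toFun u := ∑ p, u p
  map_add' u v := by simp [Finset.sum_add_distrib]
  map_smul' c u := by simp [Finset.mul_sum]

lemma ff_apply (M : ℕ) (u : VV M) : ff M u = ∑ p, u p := rfl

/-- positive, all primes below `M` -/
def Sp (M : ℕ) (g : ℚ) : Prop := 0 < g ∧ ∀ p : ℕ, p.Prime → M ≤ p → padicValRat p g = 0

lemma Sp.mul {M : ℕ} {g g' : ℚ} (h : Sp M g) (h' : Sp M g') : Sp M (g * g') := by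
  refine ⟨mul_pos h.1 h'.1, fun p hp hM => ?_⟩
  have : Fact p.Prime := ⟨hp⟩
  rw [padicValRat.mul h.1.ne' h'.1.ne', h.2 p hp hM, h'.2 p hp hM, add_zero]

lemma Sp.inv {M : ℕ} {g : ℚ} (h : Sp M g) : Sp M (g⁻¹) := by
  refine ⟨inv_pos.2 h.1, fun p hp hM => ?_⟩
  have : Fact p.Prime := ⟨hp⟩
  rw [padicValRat.inv, h.2 p hp hM, neg_zero]

lemma Sp.zpow {M : ℕ} {g : ℚ} (h : Sp M g) (k : ℤ) : Sp M (g ^ k) := by
  refine ⟨zpow_pos h.1 k, fun p hp hM => ?_⟩
  have : Fact p.Prime := ⟨hp⟩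
  rw [padicValRat.zpow, h.2 p hp hM, mul_zero]

lemma Sp.one (M : ℕ) : Sp M 1 := by
  refine ⟨one_pos, fun p hp hM => by simp⟩

lemma Sp.natCast {M n : ℕ} (hn : 0 < n) (hM : n < M) : Sp M (n : ℚ) := by
  refine ⟨by exact_mod_cast hn, fun p hp hMp => ?_⟩
  rw [padicValRat.of_nat]
  have : ¬ p ∣ n := fun h => by
    have := Nat.le_of_dvd hn h
    omega
  rw [padicValNat.eq_zero_of_not_dvd this]; simp

/-- the height -/
noncomputable def ht (g : ℚ) : ℝ := Real.log g.num.natAbs + Real.log g.den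

lemma val_or {g : ℚ} {p : ℕ} (hp : p.Prime) :
    padicValNat p g.num.natAbs = 0 ∨ padicValNat p g.den = 0 := by
  by_cases h : p ∣ g.num.natAbs
  · right
    apply padicValNat.eq_zero_of_not_dvd
    intro h'
    have := Nat.dvd_gcd h h'
    rw [g.reduced] at this
    exact hp.one_lt.ne' (Nat.dvd_one.1 this)
  · left
    exact padicValNat.eq_zero_of_not_dvd h

lemma padicValRat_eq (g : ℚ) (p : ℕ) :
    padicValRat p g = (padicValNat p g.num.natAbs : ℤ) - padicValNat p g.den := rfl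

lemma Sp.num {M : ℕ} {g : ℚ} (h : Sp M g) {p : ℕ} (hp : p.Prime) (hM : M ≤ p) :
    padicValNat p g.num.natAbs = 0 ∧ padicValNat p g.den = 0 := by
  have h1 := h.2 p hp hM
  rw [padicValRat_eq] at h1
  rcases val_or (g := g) hp with h2 | h2 <;> omega

lemma log_nat_eq {M n : ℕ} (h : ∀ p : ℕ, p.Prime → M ≤ p → padicValNat p n = 0) :
    Real.log n = ∑ p : Ix M, (padicValNat p n : ℝ) * Real.log (p : ℕ) := by
  rw [Real.log_nat_eq_sum_factorization]
  rw [Finset.sum_coe_sort (Nat.primesBelow M) (fun p => (padicValNat p n : ℝ) * Real.log (p : ℕ))]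
  rw [Finsupp.sum_of_support_subset (s := Nat.primesBelow M)]
  · apply Finset.sum_congr rfl
    intro p hp
    rw [Nat.factorization_def n (Nat.prime_of_mem_primesBelow hp)]
  · intro p hp
    have hpp : p.Prime := Nat.prime_of_mem_primeFactors (by simpa using hp)
    rw [Nat.mem_primesBelow]
    refine ⟨?_, hpp⟩
    by_contra hlt
    have h0 := h p hpp (not_lt.1 hlt)
    rw [← Nat.factorization_def n hpp] at h0
    rw [Finsupp.mem_support_iff] at hp
    exact hp h0
  · intro p _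
    simp

lemma ff_vec {M : ℕ} {g : ℚ} (h : Sp M g) : ff M (vec M g) = Real.log g := by
  have hnum : (0:ℤ) < g.num := Rat.num_pos.2 h.1
  have hden : 0 < g.den := g.den_pos
  have e : Real.log (g : ℝ) = Real.log g.num.natAbs - Real.log g.den := by
    conv_lhs => rw [← Rat.num_div_den g]
    push_cast
    rw [Real.log_div (by exact_mod_cast hnum.ne') (by exact_mod_cast hden.ne')]
    congr 2
    have : ((g.num.natAbs : ℤ) : ℝ) = (g.num : ℝ) := by
      rw [Int.natAbs_of_nonneg hnum.le]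
    rw [← this]; simp
  rw [e, log_nat_eq (M := M) (fun p hp hM => (h.num hp hM).1),
    log_nat_eq (M := M) (n := g.den) (fun p hp hM => (h.num hp hM).2), ff_apply,
    ← Finset.sum_sub_distrib]
  apply Finset.sum_congr rfl
  intro p _
  rw [vec_apply, padicValRat_eq]
  simp only [Int.cast_sub, Int.cast_natCast]
  ring

lemma norm_vec {M : ℕ} {g : ℚ} (h : Sp M g) : ‖vec M g‖ = ht g := by
  rw [PiLp.norm_eq_of_L1, ht, log_nat_eq (M := M) (fun p hp hM => (h.num hp hM).1),
    log_nat_eq (M := M) (n := g.den) (fun p hp hM => (h.num hp hM).2),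
    ← Finset.sum_add_distrib]
  apply Finset.sum_congr rfl
  intro p _
  have hl : 0 ≤ Real.log (p : ℕ) := Real.log_natCast_nonneg _
  rw [vec_apply, padicValRat_eq, Real.norm_eq_abs, abs_mul, abs_of_nonneg hl]
  rcases val_or (g := g) p.prime with h2 | h2
  · rw [h2]; simp
  · rw [h2]; simp

lemma ht_nonneg (g : ℚ) : 0 ≤ ht g := by
  unfold ht
  have := Real.log_natCast_nonneg g.num.natAbs
  have := Real.log_natCast_nonneg g.den
  linarith

/-- a positive rational other than one has height at least `log 2` -/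
lemma ht_ge {g : ℚ} (h : 0 < g) (h1 : g ≠ 1) : Real.log 2 ≤ ht g := by
  have hnum : (0:ℤ) < g.num := Rat.num_pos.2 h
  have hden : 0 < g.den := g.den_pos
  unfold ht
  by_cases hd : 2 ≤ g.den
  · have h2 : Real.log 2 ≤ Real.log g.den := Real.log_le_log (by norm_num) (by exact_mod_cast hd)
    have := Real.log_natCast_nonneg g.num.natAbs
    linarith
  · have hd1 : g.den = 1 := by omega
    have hn : 2 ≤ g.num.natAbs := by
      by_contra hlt
      have : g.num = 1 := by omega
      apply h1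
      rw [← Rat.num_div_den g, this, hd1]; norm_num
    have h2 : Real.log 2 ≤ Real.log g.num.natAbs :=
      Real.log_le_log (by norm_num) (by exact_mod_cast hn)
    have := Real.log_natCast_nonneg g.den
    linarith

/-- Liouville-type inequality for logarithms of rationals. -/
lemma log_lower {g : ℚ} (h : 0 < g) (h1 : g ≠ 1) : Real.exp (-ht g) ≤ |Real.log g| := by
  have hnum : (0:ℤ) < g.num := Rat.num_pos.2 h
  have hden : 0 < g.den := g.den_pos
  set P := g.num.natAbs with hP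
  set Q := g.den with hQ
  have hP0 : 0 < P := by omega
  have hPQ : P ≠ Q := by
    intro he
    apply h1
    have : g.num = (Q : ℤ) := by
      rw [← he, hP, Int.natAbs_of_nonneg hnum.le]
    rw [← Rat.num_div_den g, this, ← hQ]
    have : (Q : ℚ) ≠ 0 := by exact_mod_cast hden.ne'
    field_simp
    push_cast; rfl
  have hPr : (1:ℝ) ≤ P := by exact_mod_cast hP0
  have hQr : (1:ℝ) ≤ Q := by exact_mod_cast hden
  have e : Real.log (g : ℝ) = Real.log P - Real.log Q := by
    conv_lhs => rw [← Rat.num_div_den g]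
    push_cast
    rw [Real.log_div (by exact_mod_cast hnum.ne') (by exact_mod_cast hden.ne')]
    congr 2
    have : ((g.num.natAbs : ℤ) : ℝ) = (g.num : ℝ) := by
      rw [Int.natAbs_of_nonneg hnum.le]
    rw [← this]; simp [hP]
  have e2 : Real.exp (-ht g) = 1 / (P * Q) := by
    rw [ht, ← hP, ← hQ, ← Real.log_mul (by linarith) (by linarith), Real.exp_neg,
      Real.exp_log (by positivity), one_div]
  have key : ∀ a b : ℕ, 0 < a → 0 < b → a < b → 1 / ((a:ℝ) * b) ≤ Real.log b - Real.log a := by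
    intro a b ha hb hab
    have har : (1:ℝ) ≤ a := by exact_mod_cast ha
    have hbr : (1:ℝ) ≤ b := by exact_mod_cast hb
    have h1 := Real.one_sub_inv_le_log_of_pos (x := (b:ℝ)/a) (by positivity)
    rw [Real.log_div (by linarith) (by linarith)] at h1
    refine le_trans ?_ h1
    have hab' : (a:ℝ) + 1 ≤ b := by exact_mod_cast hab
    rw [inv_div, div_le_iff₀ (by positivity)]
    have : (1 - (a:ℝ) / b) * (a * b) = a * (b - a) := by field_simp
    rw [this]
    nlinarith
  rw [e, e2]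
  rcases lt_or_gt_of_ne hPQ with hlt | hgt
  · rw [abs_sub_comm]
    exact (key P Q hP0 hden hlt).trans (le_abs_self _)
  · rw [mul_comm]
    exact (key Q P hden hP0 hgt).trans (le_abs_self _)

/-- the subgroup of vectors of rationals -/
noncomputable def GG (M : ℕ) : AddSubgroup (VV M) where
  carrier := {u | ∃ g : ℚ, Sp M g ∧ u = vec M g}
  zero_mem' := ⟨1, Sp.one M, (vec_one M).symm⟩
  add_mem' := by
    rintro _ _ ⟨g, hg, rfl⟩ ⟨g', hg', rfl⟩
    exact ⟨g * g', hg.mul hg', (vec_mul M hg.1.ne' hg'.1.ne').symm⟩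
  neg_mem' := by
    rintro _ ⟨g, hg, rfl⟩
    exact ⟨g⁻¹, hg.inv, (vec_inv M g).symm⟩

lemma GG_lower {M : ℕ} {u : VV M} (hu : u ∈ GG M) (h0 : u ≠ 0) :
    Real.exp (-‖u‖) ≤ |ff M u| := by
  obtain ⟨g, hg, rfl⟩ := hu
  rw [norm_vec hg, ff_vec hg]
  apply log_lower hg.1
  rintro rfl
  exact h0 (vec_one M)

lemma GG_inj {M : ℕ} : ∀ u ∈ GG M, ff M u = 0 → u = 0 := by
  intro u hu hf
  by_contra h0
  have := GG_lower hu h0
  rw [hf, abs_zero] at this
  exact absurd this (not_le.2 (Real.exp_pos _))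

lemma val_two_three {p : ℕ} (hp : p.Prime) (i j : ℤ) :
    padicValRat p ((2:ℚ) ^ i * (3:ℚ) ^ j) = if p = 2 then i else if p = 3 then j else 0 := by
  have : Fact p.Prime := ⟨hp⟩
  rw [padicValRat.mul (zpow_ne_zero _ (by norm_num)) (zpow_ne_zero _ (by norm_num)),
    padicValRat.zpow, padicValRat.zpow]
  have e2 : padicValRat p (2:ℚ) = if p = 2 then 1 else 0 := by
    have : ((2:ℕ) : ℚ) = 2 := by norm_num
    rw [← this, padicValRat.of_nat]
    split_ifs with h
    · subst h; simp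
    · have hF : Fact (Nat.Prime 2) := ⟨Nat.prime_two⟩
      rw [padicValNat_primes h]; simp
  have e3 : padicValRat p (3:ℚ) = if p = 3 then 1 else 0 := by
    have : ((3:ℕ) : ℚ) = 3 := by norm_num
    rw [← this, padicValRat.of_nat]
    split_ifs with h
    · subst h; simp
    · have hF : Fact (Nat.Prime 3) := ⟨Nat.prime_three⟩
      rw [padicValNat_primes h]; simp
  rw [e2, e3]
  by_cases h2 : p = 2
  · subst h2; simp
  · by_cases h3 : p = 3
    · subst h3; simp
    · simp [h2, h3]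

lemma Sp.two_three {M : ℕ} (hM : 4 ≤ M) (i j : ℤ) : Sp M ((2:ℚ) ^ i * (3:ℚ) ^ j) := by
  apply Sp.mul
  · apply Sp.zpow
    have := Sp.natCast (M := M) (n := 2) (by norm_num) (by omega)
    simpa using this
  · apply Sp.zpow
    have := Sp.natCast (M := M) (n := 3) (by norm_num) (by omega)
    simpa using this

/-- sums over `Ix M` of functions supported on `2, 3` -/
lemma sum_Ix {M : ℕ} (hM : 4 ≤ M) (F : ℕ → ℝ) (hF : ∀ p : ℕ, p.Prime → p ≠ 2 → p ≠ 3 → F p = 0) :
    ∑ p : Ix M, F p = F 2 + F 3 := by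
  rw [Finset.sum_coe_sort (Nat.primesBelow M) F]
  have hsub : ({2, 3} : Finset ℕ) ⊆ Nat.primesBelow M := by
    intro p hp
    simp only [Finset.mem_insert, Finset.mem_singleton] at hp
    rw [Nat.mem_primesBelow]
    rcases hp with rfl | rfl
    · exact ⟨by omega, Nat.prime_two⟩
    · exact ⟨by omega, Nat.prime_three⟩
  rw [← Finset.sum_subset hsub]
  · rw [Finset.sum_pair (by norm_num)]
  · intro p hp hp'
    simp only [Finset.mem_insert, Finset.mem_singleton, not_or] at hp'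
    exact hF p (Nat.prime_of_mem_primesBelow hp) hp'.1 hp'.2

lemma smooth_log {M : ℕ} (hM : 4 ≤ M) {g : ℚ} (hg : Sp M g)
    (h : ∀ p : ℕ, p.Prime → p ≠ 2 → p ≠ 3 → padicValRat p g = 0) :
    Real.log g = (padicValRat 2 g : ℝ) * Real.log 2 + (padicValRat 3 g : ℝ) * Real.log 3 := by
  rw [← ff_vec hg, ff_apply]
  have := sum_Ix hM (fun p => (padicValRat p g : ℝ) * Real.log p)
    (fun p hp h2 h3 => by simp [h p hp h2 h3])
  simp only [vec_apply]
  rw [this]
  norm_num

lemma smooth_ht {M : ℕ} (hM : 4 ≤ M) {g : ℚ} (hg : Sp M g)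
    (h : ∀ p : ℕ, p.Prime → p ≠ 2 → p ≠ 3 → padicValRat p g = 0) :
    ht g = |(padicValRat 2 g : ℝ)| * Real.log 2 + |(padicValRat 3 g : ℝ)| * Real.log 3 := by
  rw [← norm_vec hg, PiLp.norm_eq_of_L1]
  have := sum_Ix hM (fun p => ‖(padicValRat p g : ℝ) * Real.log p‖)
    (fun p hp h2 h3 => by simp [h p hp h2 h3])
  simp only [vec_apply]
  rw [this]
  have h2 : 0 ≤ Real.log 2 := Real.log_nonneg (by norm_num)
  have h3 : 0 ≤ Real.log 3 := Real.log_nonneg (by norm_num)
  simp only [Real.norm_eq_abs, abs_mul]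
  norm_num [abs_of_nonneg h2, abs_of_nonneg h3]

lemma norm_two_three {M : ℕ} (hM : 4 ≤ M) (i j : ℤ) :
    ‖vec M ((2:ℚ) ^ i * (3:ℚ) ^ j)‖ = |(i:ℝ)| * Real.log 2 + |(j:ℝ)| * Real.log 3 := by
  have hS := Sp.two_three hM i j
  rw [norm_vec hS, smooth_ht hM hS (fun p hp h2 h3 => by rw [val_two_three hp]; simp [h2, h3]),
    val_two_three Nat.prime_two, val_two_three Nat.prime_three]
  norm_num

lemma ff_two_three {M : ℕ} (hM : 4 ≤ M) (i j : ℤ) :
    ff M (vec M ((2:ℚ) ^ i * (3:ℚ) ^ j)) = (i:ℝ) * Real.log 2 + (j:ℝ) * Real.log 3 := by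
  have hS := Sp.two_three hM i j
  rw [ff_vec hS, smooth_log hM hS (fun p hp h2 h3 => by rw [val_two_three hp]; simp [h2, h3]),
    val_two_three Nat.prime_two, val_two_three Nat.prime_three]
  norm_num

end Pool.Agent.Helper7.Density
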