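import Mathlib
import Pool.Agent.Helper7.Density.Vec
import Pool.Agent.Helper8.Defs

set_option autoImplicit false
set_option maxHeartbeats 4000000

/-!
The key lower bound for the height of a rational close to a multiple of `log v`.
-/

namespace Pool.Agent.Helper7.Density

open Finset Pool.Agent.Helper8

lemma log_two_gt : (0.6931 : ℝ) < Real.log 2 := lt_trans (by norm_num) Real.log_two_gt_d9

lemma absorb {C : ℝ} (hC : 1 ≤ C) {t x : ℝ} (ht : 1 ≤ t) (hx : 0 ≤ x)
    (h : t ≤ (C * Real.log (t * (4 * x + 41))) ^ C) :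
    t ≤ (32 * C ^ 4 * Real.log (x + 2)) ^ C := by
  have hC0 : 0 < C := by linarith
  set l := Real.log (x + 2) with hl
  have hl2 : Real.log 2 ≤ l := Real.log_le_log (by norm_num) (by linarith)
  have hl0 : 0.6931 < l := lt_of_lt_of_le log_two_gt hl2
  set u : ℝ := t ^ (1 / (2 * C)) with hu
  have hu1 : 1 ≤ u := Real.one_le_rpow ht (by positivity)
  have hlog4 : Real.log (4 * x + 41) ≤ 6 * l := by
    have h1 : 4 * x + 41 ≤ (x + 2) ^ 6 := by
      have : (32:ℝ) ≤ (x + 2) ^ 5 := by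
        calc (32:ℝ) = 2 ^ 5 := by norm_num
        _ ≤ (x + 2) ^ 5 := by gcongr; linarith
      calc 4 * x + 41 ≤ 32 * (x + 2) := by linarith
      _ ≤ (x + 2) ^ 5 * (x + 2) := by gcongr
      _ = (x + 2) ^ 6 := by ring
    calc Real.log (4 * x + 41) ≤ Real.log ((x + 2) ^ 6) := Real.log_le_log (by linarith) h1
    _ = 6 * l := by rw [Real.log_pow, ← hl]; norm_num
  have hlogt : Real.log t ≤ 2 * C * u := by
    have h1 : Real.log u = 1 / (2 * C) * Real.log t := Real.log_rpow (by linarith) _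
    have h2 : Real.log t = 2 * C * Real.log u := by rw [h1]; field_simp
    rw [h2]
    have := Real.log_le_sub_one_of_pos (x := u) (by linarith)
    apply mul_le_mul_of_nonneg_left _ (by positivity)
    linarith
  have hlt0 : 0 ≤ Real.log t := Real.log_nonneg ht
  have hl40 : 0 ≤ Real.log (4 * x + 41) := Real.log_nonneg (by linarith)
  have hlogmul : Real.log (t * (4 * x + 41)) = Real.log t + Real.log (4 * x + 41) :=
    Real.log_mul (by linarith) (by linarith)
  have hu2 : u ^ 2 = t ^ (1 / C) := by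
    rw [hu, ← Real.rpow_natCast, ← Real.rpow_mul (by linarith)]
    congr 1; push_cast; field_simp
  have h1 : t ^ (1 / C) ≤ C * Real.log (t * (4 * x + 41)) := by
    have h2 := Real.rpow_le_rpow (by linarith) h (z := 1 / C) (by positivity)
    rw [← Real.rpow_mul, mul_one_div_cancel hC0.ne', Real.rpow_one] at h2
    · exact h2
    · rw [hlogmul]; positivity
  have hq : u ^ 2 ≤ 2 * C ^ 2 * u + 6 * C * l := by
    rw [hu2]
    calc t ^ (1 / C) ≤ C * (Real.log t + Real.log (4 * x + 41)) := by rw [← hlogmul]; exact h1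
    _ ≤ C * (2 * C * u + 6 * l) := by gcongr
    _ = _ := by ring
  have hC4 : C ≤ C ^ 4 := by
    calc C = C ^ 1 := (pow_one C).symm
    _ ≤ C ^ 4 := pow_le_pow_right₀ hC (by norm_num)
  have hfin : u ^ 2 ≤ 32 * C ^ 4 * l := by
    have hC4' : 0 < C ^ 4 := by positivity
    rcases le_or_gt u (4 * C ^ 2) with h3 | h3
    · calc u ^ 2 ≤ (4 * C ^ 2) ^ 2 := by gcongr
      _ = 16 * C ^ 4 := by ring
      _ ≤ 32 * C ^ 4 * l := by nlinarith
    · have h4 : 2 * C ^ 2 * u ≤ u ^ 2 / 2 := by nlinarith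
      calc u ^ 2 ≤ 12 * C * l := by linarith
      _ ≤ 32 * C ^ 4 * l := by
        apply mul_le_mul_of_nonneg_right _ (by linarith)
        linarith
  have h5 : t = (u ^ 2) ^ C := by
    rw [hu2, ← Real.rpow_mul (by linarith), one_div_mul_cancel hC0.ne', Real.rpow_one]
  rw [h5]
  exact Real.rpow_le_rpow (by positivity) hfin (by linarith)

/-- the loss in the lower bound -/
noncomputable def RR (C x : ℝ) : ℝ := (32 * C ^ 4 * Real.log (x + 2)) ^ C

lemma base_ge {C x : ℝ} (hC : 1 ≤ C) (hx : 0 ≤ x) : 16 ≤ 32 * C ^ 4 * Real.log (x + 2) := by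
  have hl2 : Real.log 2 ≤ Real.log (x + 2) := Real.log_le_log (by norm_num) (by linarith)
  have hl0 : 0.6931 < Real.log (x + 2) := lt_of_lt_of_le log_two_gt hl2
  have hC4 : 1 ≤ C ^ 4 := one_le_pow₀ hC
  nlinarith

lemma RR_one_le {C x : ℝ} (hC : 1 ≤ C) (hx : 0 ≤ x) : 1 ≤ RR C x := by
  have := base_ge hC hx
  exact Real.one_le_rpow (by linarith) (by linarith)

lemma RR_mono {C C' x : ℝ} (hC : 1 ≤ C) (hCC : C ≤ C') (hx : 0 ≤ x) : RR C x ≤ RR C' x := by
  have h1 := base_ge hC hx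
  have h2 := base_ge (hC.trans hCC) hx
  have hl2 : Real.log 2 ≤ Real.log (x + 2) := Real.log_le_log (by norm_num) (by linarith)
  have hl0 : 0.6931 < Real.log (x + 2) := lt_of_lt_of_le log_two_gt hl2
  unfold RR
  calc (32 * C ^ 4 * Real.log (x + 2)) ^ C ≤ (32 * C' ^ 4 * Real.log (x + 2)) ^ C := by
        apply Real.rpow_le_rpow (by linarith) _ (by linarith)
        gcongr
  _ ≤ (32 * C' ^ 4 * Real.log (x + 2)) ^ C' :=
        Real.rpow_le_rpow_of_exponent_le (by linarith) hCC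

/-- the square of the logarithm of `1 + 144 R` is at most a constant times `sqrt (log (x+2))` -/
lemma log_RR {C x : ℝ} (hC : 1 ≤ C) (hx : 0 ≤ x) :
    (Real.log (1 + 144 * RR C x)) ^ 2 ≤ 384 * C ^ 4 * Real.sqrt (Real.log (x + 2)) := by
  have hR := RR_one_le hC hx
  set Z := 32 * C ^ 4 * Real.log (x + 2) with hZ
  have hZ16 : 16 ≤ Z := base_ge hC hx
  have hl2 : Real.log 2 ≤ Real.log (x + 2) := Real.log_le_log (by norm_num) (by linarith)
  have hl0 : 0.6931 < Real.log (x + 2) := lt_of_lt_of_le log_two_gt hl2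
  set s := Real.sqrt (Real.sqrt Z) with hs
  have hs2 : 2 ≤ s := by
    apply Real.le_sqrt_of_sq_le
    apply Real.le_sqrt_of_sq_le
    linarith
  have hs4 : s ^ 2 = Real.sqrt Z := Real.sq_sqrt (Real.sqrt_nonneg _)
  have hss : s ^ 4 = Z := by
    have : s ^ 4 = (s ^ 2) ^ 2 := by ring
    rw [this, hs4, Real.sq_sqrt (by linarith)]
  have hlogZ : Real.log Z ≤ 4 * s := by
    rw [← hss, Real.log_pow]
    have := Real.log_le_sub_one_of_pos (x := s) (by linarith)
    push_cast
    linarith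
  have h145 : Real.log 145 ≤ 4 * s := by
    have : Real.log 145 ≤ 8 := by
      rw [Real.log_le_iff_le_exp (by norm_num)]
      have h1 : (2.7:ℝ) ≤ Real.exp 1 := by
        have := Real.exp_one_gt_d9; linarith
      calc (145:ℝ) ≤ 2.7 ^ 8 := by norm_num
      _ ≤ (Real.exp 1) ^ 8 := by gcongr
      _ = Real.exp 8 := by rw [← Real.exp_nat_mul]; norm_num
    linarith
  have hlog : Real.log (1 + 144 * RR C x) ≤ 8 * C * s := by
    calc Real.log (1 + 144 * RR C x) ≤ Real.log (145 * RR C x) :=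
          Real.log_le_log (by linarith) (by linarith)
    _ = Real.log 145 + C * Real.log Z := by
          rw [Real.log_mul (by norm_num) (by linarith)]
          congr 1
          exact Real.log_rpow (by linarith) _
    _ ≤ 4 * s + C * (4 * s) := by gcongr
    _ ≤ 8 * C * s := by nlinarith
  have hlog0 : 0 ≤ Real.log (1 + 144 * RR C x) := Real.log_nonneg (by linarith)
  calc (Real.log (1 + 144 * RR C x)) ^ 2 ≤ (8 * C * s) ^ 2 := by gcongr
  _ = 64 * C ^ 2 * Real.sqrt Z := by rw [mul_pow, hs4]; ring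
  _ ≤ 64 * C ^ 2 * (6 * C ^ 2 * Real.sqrt (Real.log (x + 2))) := by
      apply mul_le_mul_of_nonneg_left _ (by positivity)
      rw [Real.sqrt_le_left (by positivity), mul_pow, mul_pow, Real.sq_sqrt (by linarith), hZ]
      have : 0 ≤ C ^ 4 * Real.log (x + 2) := by positivity
      nlinarith
  _ = 384 * C ^ 4 * Real.sqrt (Real.log (x + 2)) := by ring

lemma mulIndep_of_prime {g : ℚ} (hg : 0 < g) {p : ℕ} (hp : p.Prime) (h2 : p ≠ 2) (h3 : p ≠ 3)
    (hv : padicValRat p g ≠ 0) :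
    MulIndep3 ((2:ℕ):ℝ) ((3:ℕ):ℝ) ((g.num.natAbs : ℝ) / g.den) := by
  intro i j k h
  have hnum : (0:ℤ) < g.num := Rat.num_pos.2 hg
  have e : ((g.num.natAbs : ℝ) / g.den) = ((g : ℚ) : ℝ) := by
    conv_rhs => rw [← Rat.num_div_den g]
    push_cast
    congr 1
    have : ((g.num.natAbs : ℤ) : ℝ) = (g.num : ℝ) := by
      rw [Int.natAbs_of_nonneg hnum.le]
    rw [← this]; simp
  rw [e] at h
  have hq : (2:ℚ) ^ i * (3:ℚ) ^ j * g ^ k = 1 := by
    have : (((2:ℚ) ^ i * (3:ℚ) ^ j * g ^ k : ℚ) : ℝ) = ((1:ℚ) : ℝ) := by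
      push_cast
      push_cast at h
      exact h
    exact_mod_cast this
  have h0 : (2:ℚ) ^ i * (3:ℚ) ^ j ≠ 0 :=
    mul_ne_zero (zpow_ne_zero _ (by norm_num)) (zpow_ne_zero _ (by norm_num))
  have hval : ∀ q : ℕ, q.Prime →
      (if q = 2 then i else if q = 3 then j else 0) + k * padicValRat q g = 0 := by
    intro q hq'
    have : Fact q.Prime := ⟨hq'⟩
    rw [← val_two_three hq', ← padicValRat.zpow, ← padicValRat.mul h0 (zpow_ne_zero _ hg.ne'), hq]
    simp
  have hk : k = 0 := by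
    have := hval p hp
    rw [if_neg h2, if_neg h3, zero_add, mul_eq_zero] at this
    exact this.resolve_right hv
  subst hk
  have h2' := hval 2 Nat.prime_two
  have h3' := hval 3 Nat.prime_three
  simp at h2' h3'
  exact ⟨h2', h3', rfl⟩

lemma core {CA CB : ℝ} (hCA : 1 ≤ CA) (hCB : 1 ≤ CB)
    (hA : ∀ (P Q H N b : ℕ) (b1 b2 : ℤ), 1 ≤ H → 0 < P → 0 < Q →
    (P : ℝ) ≤ Real.exp H → (Q : ℝ) ≤ Real.exp H → MulIndep3 ((2:ℕ):ℝ) ((3:ℕ):ℝ) ((P : ℝ) / Q) →
    |(b1 : ℝ)| ≤ N * H → |(b2 : ℝ)| ≤ N * H → 1 ≤ b → b ≤ N →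
    Real.exp (-((H : ℝ) * (CA * Real.log (N + 2)) ^ CA)) ≤
      |(b1 : ℝ) * Real.log ((2:ℕ):ℝ) + b2 * Real.log ((3:ℕ):ℝ) - b * Real.log ((P : ℝ) / Q)|)
    (hB : ∀ m n : ℤ, (m ≠ 0 ∨ n ≠ 0) →
    Real.exp (-((CB * Real.log (|(m : ℝ)| + |(n : ℝ)| + 2)) ^ CB)) ≤
      |(m : ℝ) * Real.log 2 + n * Real.log 3|)
    {M : ℕ} (hM : 4 ≤ M) {g : ℚ} (hg : Sp M g) {w : ℕ} (hw : 104 ≤ w) {B : ℝ} (hB16 : 16 ≤ B)
    {f1 f2 D : ℤ} {J : ℕ} {h lam : ℝ}
    (hlam : lam = (f1:ℝ) * Real.log 2 + (f2:ℝ) * Real.log 3)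
    (hh : h = |(f1:ℝ)| * Real.log 2 + |(f2:ℝ)| * Real.log 3)
    (hlamB : 1 ≤ lam * B ^ 8) (hD : |(D:ℝ)| ≤ 2 * J)
    (hclose : |Real.log g - D * lam| ≤ 8 * (1 / B ^ w)) (hne : Real.log g ≠ D * lam)
    (hht : ht g ≤ 24 * Real.log B) :
    Real.log B ≤ 3 * RR (max CA CB) (J * h / Real.log B) * ht g := by
  set b := Real.log B with hb
  have hl2 := log_two_gt
  have hl3 : Real.log 2 ≤ Real.log 3 := Real.log_le_log (by norm_num) (by norm_num)
  have hl8 : Real.log 8 < 3 := by
    have : (8:ℝ) = 2 ^ 3 := by norm_num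
    rw [this, Real.log_pow]
    have := Real.log_two_lt_d9
    push_cast; linarith
  have hB0 : 0 < B := by linarith
  have hb2 : 2.77 < b := by
    have h1 : Real.log 16 ≤ b := Real.log_le_log (by norm_num) hB16
    have h2 : (16:ℝ) = 2 ^ 4 := by norm_num
    rw [h2, Real.log_pow] at h1
    push_cast at h1; linarith
  have hb0 : 0 < b := by linarith
  have hlam0 : 0 < lam := by
    by_contra hle
    have : lam * B ^ 8 ≤ 0 := mul_nonpos_of_nonpos_of_nonneg (not_lt.1 hle) (by positivity)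
    linarith
  have hh0 : 0 ≤ h := by rw [hh]; positivity
  have hf1 : |(f1:ℝ)| + |(f2:ℝ)| ≤ h / Real.log 2 := by
    rw [le_div_iff₀ (by linarith), hh]
    have : 0 ≤ |(f2:ℝ)| := abs_nonneg _
    nlinarith
  have hdiv2 : h / Real.log 2 ≤ 1.5 * h := by
    rw [div_le_iff₀ (by linarith)]; nlinarith
  set x := J * h / b with hx
  have hx0 : 0 ≤ x := by positivity
  have hJh : (J:ℝ) * h = x * b := by rw [hx]; field_simp
  -- from a lower bound `exp (-X)` for the small quantity we get `b ≤ X`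
  have hexp : ∀ X : ℝ, Real.exp (-X) ≤ 8 * (1 / B ^ w) → b ≤ X := by
    intro X hX
    have h1 : (8:ℝ) * (1 / B ^ w) = Real.exp (Real.log 8 - w * b) := by
      rw [Real.exp_sub, Real.exp_log (by norm_num), hb, mul_comm (w:ℝ), Real.exp_mul,
        Real.exp_log hB0, Real.rpow_natCast]
      ring
    rw [h1, Real.exp_le_exp] at hX
    have hw' : (104:ℝ) ≤ w := by exact_mod_cast hw
    nlinarith
  set C0 := max CA CB with hC0
  have hC0A : CA ≤ C0 := le_max_left _ _
  have hC0B : CB ≤ C0 := le_max_right _ _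
  have hC01 : 1 ≤ C0 := hCA.trans hC0A
  have hR1 : 1 ≤ RR C0 x := RR_one_le hC01 hx0
  by_cases hg1 : g = 1
  · -- impossible
    exfalso
    subst hg1
    have e1 : Real.log ((1:ℚ):ℝ) = 0 := by norm_num
    rw [e1] at hclose hne
    have hD0 : D ≠ 0 := by
      rintro rfl
      apply hne; simp
    have hD1 : (1:ℝ) ≤ |(D:ℝ)| := by
      have : 1 ≤ |D| := Int.one_le_abs hD0
      exact_mod_cast this
    rw [zero_sub, abs_neg, abs_mul, abs_of_pos hlam0] at hclose
    have h1 : lam ≤ 8 * (1 / B ^ w) := by nlinarith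
    have h2 : 1 / B ^ w ≤ 1 / B ^ 9 := by
      apply one_div_le_one_div_of_le (by positivity)
      exact pow_le_pow_right₀ (by linarith) (by omega)
    have h3 : lam * B ^ 8 ≤ 8 * (1 / B ^ 9) * B ^ 8 := by
      apply mul_le_mul_of_nonneg_right _ (by positivity)
      linarith
    have h4 : 8 * (1 / B ^ 9) * B ^ 8 = 8 / B := by field_simp
    have h5 : 8 / B ≤ 1 / 2 := by
      rw [div_le_div_iff₀ hB0 (by norm_num)]; linarith
    linarith
  have hhtl : Real.log 2 ≤ ht g := ht_ge hg.1 hg1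
  by_cases hsm : ∀ p : ℕ, p.Prime → p ≠ 2 → p ≠ 3 → padicValRat p g = 0
  · -- smooth case
    have hlog := smooth_log hM hg hsm
    have hheq := smooth_ht hM hg hsm
    set g1 := padicValRat 2 g with hg1d
    set g2 := padicValRat 3 g with hg2d
    set m : ℤ := g1 - D * f1 with hm
    set n : ℤ := g2 - D * f2 with hn
    have hE : (m:ℝ) * Real.log 2 + (n:ℝ) * Real.log 3 = Real.log g - D * lam := by
      rw [hlog, hlam, hm, hn]; push_cast; ring
    have hmn : m ≠ 0 ∨ n ≠ 0 := by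
      by_contra hcon
      push Not at hcon
      rw [hcon.1, hcon.2] at hE
      apply hne
      push_cast at hE
      linarith
    have h1 := hB m n hmn
    rw [hE] at h1
    have h2 := hexp _ (h1.trans hclose)
    have habs : |(m:ℝ)| + |(n:ℝ)| + 2 ≤ b * (4 * x + 41) := by
      have hm' : |(m:ℝ)| ≤ |(g1:ℝ)| + |(D:ℝ)| * |(f1:ℝ)| := by
        rw [hm, ← abs_mul]; push_cast
        exact abs_sub _ _
      have hn' : |(n:ℝ)| ≤ |(g2:ℝ)| + |(D:ℝ)| * |(f2:ℝ)| := by
        rw [hn, ← abs_mul]; push_cast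
        exact abs_sub _ _
      have hgg : |(g1:ℝ)| + |(g2:ℝ)| ≤ ht g / Real.log 2 := by
        rw [le_div_iff₀ (by linarith), hheq]
        have : 0 ≤ |(g2:ℝ)| := abs_nonneg _
        nlinarith
      have hgg2 : ht g / Real.log 2 ≤ 1.5 * ht g := by
        rw [div_le_iff₀ (by linarith)]; nlinarith
      have hDf : |(D:ℝ)| * (|(f1:ℝ)| + |(f2:ℝ)|) ≤ 2 * J * (1.5 * h) := by
        apply mul_le_mul hD (hf1.trans hdiv2) (by positivity) (by positivity)
      calc |(m:ℝ)| + |(n:ℝ)| + 2 ≤ (|(g1:ℝ)| + |(g2:ℝ)|) + |(D:ℝ)| * (|(f1:ℝ)| + |(f2:ℝ)|) + 2 := by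
            linarith
      _ ≤ 1.5 * (24 * b) + 2 * J * (1.5 * h) + 2 := by linarith
      _ = 36 * b + 3 * (J * h) + 2 := by ring
      _ ≤ b * (4 * x + 41) := by
            rw [hJh]
            have : 0 ≤ x * b := by positivity
            nlinarith
    have h3 : b ≤ (CB * Real.log (b * (4 * x + 41))) ^ CB := by
      refine h2.trans ?_
      have h4 : (0:ℝ) ≤ |(m:ℝ)| + |(n:ℝ)| := by positivity
      apply Real.rpow_le_rpow _ _ (by linarith)
      · apply mul_nonneg (by linarith)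
        exact Real.log_nonneg (by linarith)
      · apply mul_le_mul_of_nonneg_left _ (by linarith)
        exact Real.log_le_log (by linarith) habs
    have h4 : b ≤ RR CB x := absorb hCB (by linarith) hx0 h3
    have h5 : RR CB x ≤ RR C0 x := RR_mono hCB hC0B hx0
    have h6 : b ≤ RR C0 x := h4.trans h5
    have h7 : 1 ≤ 3 * ht g := by linarith
    calc b ≤ RR C0 x := h6
    _ = RR C0 x * 1 := (mul_one _).symm
    _ ≤ RR C0 x * (3 * ht g) := by gcongr
    _ = 3 * RR C0 x * ht g := by ring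
  · push Not at hsm
    obtain ⟨p, hp, hp2, hp3, hv⟩ := hsm
    have hind := mulIndep_of_prime hg.1 hp hp2 hp3 hv
    have hnum : (0:ℤ) < g.num := Rat.num_pos.2 hg.1
    have hP0 : 0 < g.num.natAbs := by omega
    have hQ0 : 0 < g.den := g.den_pos
    set H := ⌈ht g⌉₊ with hH
    have hHge : ht g ≤ H := Nat.le_ceil _
    have hHle : (H:ℝ) ≤ 2.5 * ht g := by
      have := (Nat.ceil_lt_add_one (ht_nonneg g)).le
      linarith
    have hH0 : (0:ℝ) < H := by linarith
    have hH1 : 1 ≤ H := by exact_mod_cast hH0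
    have hlP : Real.log g.num.natAbs ≤ H := by
      have := Real.log_natCast_nonneg g.den
      unfold ht at hHge; linarith
    have hlQ : Real.log g.den ≤ H := by
      have := Real.log_natCast_nonneg g.num.natAbs
      unfold ht at hHge; linarith
    have hPexp : (g.num.natAbs : ℝ) ≤ Real.exp H :=
      (Real.log_le_iff_le_exp (by exact_mod_cast hP0)).1 hlP
    have hQexp : (g.den : ℝ) ≤ Real.exp H :=
      (Real.log_le_iff_le_exp (by exact_mod_cast hQ0)).1 hlQ
    set N := ⌈4 * (J * h) / H⌉₊ + 1 with hN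
    have hN1 : 1 ≤ N := by omega
    have hNH : 4 * (J * h) ≤ N * H := by
      have h1 : 4 * (J * h) / H ≤ (⌈4 * (J * h) / H⌉₊ : ℝ) := Nat.le_ceil _
      rw [div_le_iff₀ hH0] at h1
      rw [hN]; push_cast; nlinarith
    have hNle : (N:ℝ) + 2 ≤ 4 * (J * h) / H + 4 := by
      have h1 := (Nat.ceil_lt_add_one (a := 4 * (J * h) / H) (by positivity)).le
      rw [hN]; push_cast; linarith
    have hb1 : |((D * f1 : ℤ) : ℝ)| ≤ N * H := by
      push_cast; rw [abs_mul]
      have h1 : |(f1:ℝ)| ≤ 1.5 * h := by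
        have : 0 ≤ |(f2:ℝ)| := abs_nonneg _
        linarith
      have h2 : |(D:ℝ)| * |(f1:ℝ)| ≤ 2 * J * (1.5 * h) :=
        mul_le_mul hD h1 (abs_nonneg _) (by positivity)
      have h3 : (0:ℝ) ≤ J * h := by positivity
      linarith
    have hb2' : |((D * f2 : ℤ) : ℝ)| ≤ N * H := by
      push_cast; rw [abs_mul]
      have h1 : |(f2:ℝ)| ≤ 1.5 * h := by
        have : 0 ≤ |(f1:ℝ)| := abs_nonneg _
        linarith
      have h2 : |(D:ℝ)| * |(f2:ℝ)| ≤ 2 * J * (1.5 * h) :=
        mul_le_mul hD h1 (abs_nonneg _) (by positivity)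
      have h3 : (0:ℝ) ≤ J * h := by positivity
      linarith
    have hAA := hA g.num.natAbs g.den H N 1 (D * f1) (D * f2) hH1 hP0 hQ0 hPexp hQexp hind hb1 hb2'
      le_rfl hN1
    have hgr : ((g.num.natAbs : ℝ) / g.den) = ((g : ℚ) : ℝ) := by
      conv_rhs => rw [← Rat.num_div_den g]
      push_cast
      congr 1
      have : ((g.num.natAbs : ℤ) : ℝ) = (g.num : ℝ) := by
        rw [Int.natAbs_of_nonneg hnum.le]
      rw [← this]; simp
    have hEq : ((D * f1 : ℤ) : ℝ) * Real.log ((2:ℕ):ℝ) + ((D * f2 : ℤ) : ℝ) * Real.log ((3:ℕ):ℝ)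
        - ((1:ℕ):ℝ) * Real.log ((g.num.natAbs : ℝ) / g.den) = -(Real.log g - D * lam) := by
      rw [hgr, hlam]; push_cast; ring
    rw [hEq, abs_neg] at hAA
    have hbH := hexp _ (hAA.trans hclose)
    set θ := b / H with hθ
    have hθb : θ * H = b := by rw [hθ]; field_simp
    have hθ1 : θ ≤ (CA * Real.log (N + 2)) ^ CA := by
      rw [hθ, div_le_iff₀ hH0]; linarith
    have hθR : θ ≤ RR C0 x := by
      rcases le_or_gt θ 1 with h1 | h1
      · linarith
      · have h2 : (N:ℝ) + 2 ≤ θ * (4 * x + 41) := by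
          have : 4 * (J * h) / H = 4 * x * θ := by
            rw [hJh, hθ]; ring
          rw [this] at hNle
          nlinarith
        have h3 : θ ≤ (CA * Real.log (θ * (4 * x + 41))) ^ CA := by
          refine hθ1.trans ?_
          have hN0 : (0:ℝ) ≤ N := by positivity
          apply Real.rpow_le_rpow _ _ (by linarith)
          · apply mul_nonneg (by linarith)
            exact Real.log_nonneg (by linarith)
          · apply mul_le_mul_of_nonneg_left _ (by linarith)
            exact Real.log_le_log (by linarith) h2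
        exact (absorb hCA h1.le hx0 h3).trans (RR_mono hCA hC0A hx0)
    have hθ0 : 0 ≤ θ := by positivity
    calc b = θ * H := hθb.symm
    _ ≤ RR C0 x * (2.5 * ht g) := mul_le_mul hθR hHle hH0.le (by linarith)
    _ ≤ 3 * RR C0 x * ht g := by
      have : 0 ≤ RR C0 x * ht g := mul_nonneg (by linarith) (ht_nonneg g)
      linarith

end Pool.Agent.Helper7.Density
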